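import Mathlib

set_option autoImplicit false

namespace Pool.Agent.Results.MP_5eb62f_nt.BalaSupercongruence

open Finset

/-!
### Outline

With `x_j = n / j` one has
`a n = 1 - ∑_{1 ≤ j < n} x_j^3 (1 - x_j) ∏_{1 ≤ i < j} (1 - x_i^2)^2` (theorem `a_closed`).
For `n = p ^ r` every `x_j` is a multiple of `p` in the `p`-adic integers, and `a (p ^ (r-1))` is the
same expression restricted to the indices divisible by `p`.  The difference is then analysed modulo
`p ^ (3 r + 3)` by splitting into blocks of length `p ^ (r-1)` (`part1`, `part2`).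
-/

/-- The sequence of the problem: `a 0 = 1` and, for `n ≥ 1`,
`a n = ∑_{j=0}^{n-1} C(n,j) * C(n-1,j) * C(n+j-1,j)^2`. -/
def a (n : ℕ) : ℕ :=
  if n = 0 then 1 else
    ∑ j ∈ Finset.range n, n.choose j * (n - 1).choose j * ((n + j - 1).choose j) ^ 2

section Closed
variable {R : Type*} [CommRing R] [IsDomain R] [CharZero R]

/-- The sequence starts 1, 1, 9, 163, 3593. -/
theorem a_values : a 0 = 1 ∧ a 1 = 1 ∧ a 2 = 9 ∧ a 3 = 163 ∧ a 4 = 3593 := by decide

theorem choose_pred (n : ℕ) (x : ℕ → R) (hx : ∀ j, 1 ≤ j → j < n → (j : R) * x j = n) :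
    ∀ j, j < n → ((n - 1).choose j : R) = (-1) ^ j * ∏ i ∈ Finset.Ico 1 (j + 1), (1 - x i) := by
  intro j
  induction j with
  | zero => intro _; simp
  | succ j ih =>
    intro hj
    have ih' := ih (by omega)
    have h1 : ((j : R) + 1) ≠ 0 := by exact_mod_cast Nat.succ_ne_zero j
    have h2 := Nat.choose_succ_right_eq (n - 1) j
    apply mul_right_cancel₀ h1
    have h3 : ((n - 1).choose (j + 1) : R) * ((j : R) + 1)
        = ((n - 1).choose j : R) * ((n : R) - 1 - j) := by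
      have : ((n - 1 - j : ℕ) : R) = (n : R) - 1 - j := by
        rw [Nat.cast_sub (by omega), Nat.cast_sub (by omega)]; simp only [Nat.cast_one]
      rw [← this]; exact_mod_cast h2
    rw [h3, ih', Finset.prod_Ico_succ_top (show 1 ≤ j + 1 by omega)]
    have h4 := hx (j + 1) (by omega) hj
    push_cast at h4
    linear_combination (-(-1) ^ j * ∏ i ∈ Finset.Ico 1 (j + 1), (1 - x i)) * h4

theorem choose_self' (n : ℕ) (x : ℕ → R) (hx : ∀ j, 1 ≤ j → j < n → (j : R) * x j = n)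
    (j : ℕ) (hj1 : 1 ≤ j) (hj : j < n) :
    (n.choose j : R) = x j * ((-1) ^ (j - 1) * ∏ i ∈ Finset.Ico 1 j, (1 - x i)) := by
  obtain ⟨k, rfl⟩ : ∃ k, j = k + 1 := ⟨j - 1, by omega⟩
  have h1 : (((k + 1 : ℕ)) : R) ≠ 0 := by exact_mod_cast Nat.succ_ne_zero k
  have h2 := choose_pred n x hx k (by omega)
  have h3 := hx (k + 1) hj1 hj
  obtain ⟨m, rfl⟩ : ∃ m, n = m + 1 := ⟨n - 1, by omega⟩
  have h4 := Nat.add_one_mul_choose_eq m k
  have h5 : ((m + 1 : ℕ) : R) * (m.choose k : R) = ((m + 1).choose (k + 1) : R) * ((k + 1 : ℕ) : R) := by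
    exact_mod_cast h4
  simp only [Nat.add_sub_cancel] at h2 ⊢
  rw [← h2]
  apply mul_right_cancel₀ h1
  rw [← h5, ← h3]; ring

theorem choose_up (n : ℕ) (x : ℕ → R) (hx : ∀ j, 1 ≤ j → j < n → (j : R) * x j = n)
    (j : ℕ) (hj : j + 1 < n) :
    ((n + j).choose (j + 1) : R) = x (j + 1) * ∏ i ∈ Finset.Ico 1 (j + 1), (1 + x i) := by
  induction j with
  | zero =>
    have := hx 1 le_rfl (by omega)
    simp at this ⊢
    exact this.symm
  | succ j ih =>
    have ih' := ih (by omega)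
    have h1 : (((j + 2 : ℕ)) : R) ≠ 0 := by exact_mod_cast Nat.succ_ne_zero (j + 1)
    have h3 := hx (j + 2) (by omega) hj
    have h3' := hx (j + 1) (by omega) (by omega)
    -- (j+2) * C(n+j+1, j+2) = (n+j+1) * C(n+j, j+1)
    have h4 := Nat.add_one_mul_choose_eq (n + j) (j + 1)
    have h5 : ((n + j + 1 : ℕ) : R) * ((n + j).choose (j + 1) : R)
        = ((n + (j + 1)).choose (j + 1 + 1) : R) * ((j + 2 : ℕ) : R) := by
      exact_mod_cast h4
    apply mul_right_cancel₀ h1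
    rw [← h5, ih', Finset.prod_Ico_succ_top (by omega : 1 ≤ j + 1)]
    push_cast at h3 h3' ⊢
    linear_combination (∏ i ∈ Finset.Ico 1 (j + 1), (1 + x i)) * h3'
      - ((∏ i ∈ Finset.Ico 1 (j + 1), (1 + x i)) * (1 + x (j + 1))) * h3

theorem a_closed (n : ℕ) (hn : 1 ≤ n) (x : ℕ → R)
    (hx : ∀ j, 1 ≤ j → j < n → (j : R) * x j = n) :
    (a n : R) = 1 - ∑ j ∈ Finset.Ico 1 n,
      x j ^ 3 * (1 - x j) * ∏ i ∈ Finset.Ico 1 j, (1 - x i ^ 2) ^ 2 := by
  have hn0 : n ≠ 0 := by omega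
  unfold a
  rw [if_neg hn0, Finset.range_eq_Ico, Finset.sum_eq_sum_Ico_succ_bot (by omega), Nat.cast_add,
    Nat.cast_sum, sub_eq_add_neg, ← Finset.sum_neg_distrib]
  congr 1
  · simp
  · apply Finset.sum_congr rfl
    intro j hj
    rw [Finset.mem_Ico] at hj
    obtain ⟨k, rfl⟩ : ∃ k, j = k + 1 := ⟨j - 1, by omega⟩
    have e1 := choose_pred n x hx (k + 1) (by omega)
    have e2 := choose_self' n x hx (k + 1) (by omega) (by omega)
    have e3 := choose_up n x hx k (by omega)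
    have e4 : n + (k + 1) - 1 = n + k := by omega
    rw [Nat.cast_mul, Nat.cast_mul, Nat.cast_pow, e4, e1, e2, e3,
      Finset.prod_Ico_succ_top (show 1 ≤ k + 1 by omega)]
    have e5 : ∏ i ∈ Finset.Ico 1 (k + 1), (1 - x i ^ 2) ^ 2
        = (∏ i ∈ Finset.Ico 1 (k + 1), (1 - x i)) ^ 2
          * (∏ i ∈ Finset.Ico 1 (k + 1), (1 + x i)) ^ 2 := by
      rw [← Finset.prod_pow, ← Finset.prod_pow, ← Finset.prod_mul_distrib]
      apply Finset.prod_congr rfl
      intro i _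
      ring
    rw [e5, Nat.add_sub_cancel]
    have e6 : ((-1 : R) ^ k) * (-1) ^ (k + 1) = -1 := by
      rw [← pow_add, Odd.neg_one_pow (by exact ⟨k, by ring⟩)]
    linear_combination (x (k + 1) ^ 3 * (1 - x (k + 1)) * (∏ i ∈ Finset.Ico 1 (k + 1), (1 - x i)) ^ 2
      * (∏ i ∈ Finset.Ico 1 (k + 1), (1 + x i)) ^ 2) * e6
end Closed


theorem sum_blocks {M : Type*} [AddCommMonoid M] (g : ℕ → M) (L : ℕ) (P : ℕ) :
    ∑ j ∈ Finset.range (P * L), g j
      = ∑ b ∈ Finset.range P, ∑ i ∈ Finset.range L, g (b * L + i) := by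
  induction P with
  | zero => simp
  | succ P ih => rw [Nat.succ_mul, Finset.sum_range_add, ih, Finset.sum_range_succ]

section Padic
variable (p : ℕ) [hp : Fact p.Prime]

/-- inverse of a natural number in the p-adic integers (zero for multiples of `p`) -/
noncomputable def y (j : ℕ) : ℤ_[p] := Ring.inverse (j : ℤ_[p])

theorem isUnit_natCast (j : ℕ) (hj : ¬ p ∣ j) : IsUnit (j : ℤ_[p]) := by
  rw [PadicInt.isUnit_iff, PadicInt.norm_natCast_eq_one_iff]
  exact (Nat.Prime.coprime_iff_not_dvd hp.out).mpr hj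

theorem y_mul (j : ℕ) (hj : ¬ p ∣ j) : (j : ℤ_[p]) * y p j = 1 :=
  Ring.mul_inverse_cancel _ (isUnit_natCast p j hj)

theorem y_zero (j : ℕ) (hj : p ∣ j) : y p j = 0 := by
  apply Ring.inverse_non_unit
  rw [PadicInt.isUnit_iff, PadicInt.norm_natCast_eq_one_iff, Nat.Prime.coprime_iff_not_dvd hp.out]
  exact not_not.mpr hj

theorem y_shift (k i : ℕ) (hk : p ∣ k) :
    y p (k + i) = y p i - k * y p i * y p (k + i) := by
  by_cases hi : p ∣ i
  · rw [y_zero p i hi, y_zero p (k + i) (dvd_add hk hi)]; ring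
  · have h1 := y_mul p i hi
    have h2 := y_mul p (k + i) (fun h => hi ((Nat.dvd_add_right hk).mp h))
    push_cast at h2
    linear_combination (y p i) * h2 - y p (k + i) * h1

theorem y_reflect (n i : ℕ) (hn : p ∣ n) (hi : i ≤ n) :
    y p i + y p (n - i) = n * y p i * y p (n - i) := by
  by_cases hi' : p ∣ i
  · rw [y_zero p i hi', y_zero p (n - i) (Nat.dvd_sub hn hi')]; ring
  · have h1 := y_mul p i hi'
    have h2 := y_mul p (n - i) (fun h => hi' ((Nat.dvd_sub_iff_right hi hn).mp h))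
    rw [Nat.cast_sub hi] at h2
    linear_combination (-y p i) * h2 - y p (n - i) * h1

theorem isUnit_two (h5 : 5 ≤ p) : IsUnit (2 : ℤ_[p]) := by
  have := isUnit_natCast p 2 (fun h => by have := Nat.le_of_dvd (by norm_num) h; omega)
  exact_mod_cast this

/-- reflected cubic sums -/
theorem two_mul_S3 (L : ℕ) (hL : p ∣ L) :
    2 * ∑ i ∈ Finset.range L, y p i ^ 3
      = L * ∑ i ∈ Finset.range (L + 1), y p i * y p (L - i) *
          (y p i ^ 2 - y p i * y p (L - i) + y p (L - i) ^ 2) := by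
  have e1 : ∑ i ∈ Finset.range L, y p i ^ 3 = ∑ i ∈ Finset.range (L + 1), y p i ^ 3 := by
    rw [Finset.sum_range_succ, y_zero p L hL]; simp
  have e2 : ∑ i ∈ Finset.range (L + 1), y p i ^ 3
      = ∑ i ∈ Finset.range (L + 1), y p (L - i) ^ 3 := by
    have := Finset.sum_range_reflect (fun i => y p i ^ 3) (L + 1)
    simpa using this.symm
  rw [two_mul, e1]
  nth_rewrite 2 [e2]
  rw [← Finset.sum_add_distrib, Finset.mul_sum]
  apply Finset.sum_congr rfl
  intro i hi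
  have := y_reflect p L i hL (by rw [Finset.mem_range] at hi; omega)
  linear_combination (y p i ^ 2 - y p i * y p (L - i) + y p (L - i) ^ 2) * this

theorem dvd_S3 (h5 : 5 ≤ p) (L : ℕ) (hL : p ∣ L) :
    (p : ℤ_[p]) ∣ ∑ i ∈ Finset.range L, y p i ^ 3 := by
  have h := two_mul_S3 p L hL
  have h2 : (p : ℤ_[p]) ∣ 2 * ∑ i ∈ Finset.range L, y p i ^ 3 := by
    rw [h]
    exact Dvd.dvd.mul_right (by exact_mod_cast Nat.cast_dvd_cast hL) _
  exact (IsUnit.dvd_mul_left (isUnit_two p h5)).mp h2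

/-- sums of `p`-periodic functions over `range (p ^ r)`, `r ≥ 2`, vanish mod `p` -/
theorem dvd_sum_periodic (g : ℕ → ℤ_[p]) (hg : ∀ b i, (p : ℤ_[p]) ∣ g (b * p + i) - g i)
    (r : ℕ) (hr : 2 ≤ r) : (p : ℤ_[p]) ∣ ∑ i ∈ Finset.range (p ^ r), g i := by
  obtain ⟨k, rfl⟩ : ∃ k, r = k + 2 := ⟨r - 2, by omega⟩
  have e : p ^ (k + 2) = (p ^ (k + 1)) * p := by ring
  rw [e, sum_blocks]
  have h1 : (p : ℤ_[p]) ∣ ∑ b ∈ Finset.range (p ^ (k + 1)),
      (∑ i ∈ Finset.range p, g (b * p + i) - ∑ i ∈ Finset.range p, g i) := by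
    apply Finset.dvd_sum
    intro b _
    rw [← Finset.sum_sub_distrib]
    exact Finset.dvd_sum fun i _ => hg b i
  rw [Finset.sum_sub_distrib, Finset.sum_const, Finset.card_range] at h1
  have h2 : (p : ℤ_[p]) ∣ p ^ (k + 1) • ∑ i ∈ Finset.range p, g i := by
    rw [nsmul_eq_mul]
    apply Dvd.dvd.mul_right
    push_cast
    exact dvd_pow_self _ (by omega)
  have := dvd_add h1 h2
  simpa using this

theorem y_mod (b i : ℕ) : (p : ℤ_[p]) ∣ y p (b * p + i) - y p i := by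
  have h := y_shift p (b * p) i (Dvd.intro_left b rfl)
  refine ⟨-(b * y p i * y p (b * p + i)), ?_⟩
  push_cast at h
  linear_combination h

theorem dvd_S4 (r : ℕ) (hr : 2 ≤ r) :
    (p : ℤ_[p]) ∣ ∑ i ∈ Finset.range (p ^ r), y p i ^ 4 := by
  apply dvd_sum_periodic p _ _ r hr
  intro b i
  exact (y_mod p b i).trans (sub_dvd_pow_sub_pow _ _ 4)

theorem cube_dvd_S3 (h5 : 5 ≤ p) (r : ℕ) (hr : 2 ≤ r) :
    (p : ℤ_[p]) ^ 3 ∣ ∑ i ∈ Finset.range (p ^ r), y p i ^ 3 := by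
  have hpr : p ∣ p ^ r := dvd_pow_self _ (by omega)
  have h := two_mul_S3 p (p ^ r) hpr
  have hT : (p : ℤ_[p]) ∣ ∑ i ∈ Finset.range (p ^ r + 1), y p i * y p (p ^ r - i) *
          (y p i ^ 2 - y p i * y p (p ^ r - i) + y p (p ^ r - i) ^ 2) := by
    have h4 : (p : ℤ_[p]) ∣ ∑ i ∈ Finset.range (p ^ r + 1), y p i ^ 4 := by
      rw [Finset.sum_range_succ, y_zero p _ hpr]
      simpa using dvd_S4 p r hr
    have h5 : (p : ℤ_[p]) ∣ ∑ i ∈ Finset.range (p ^ r + 1), (y p i * y p (p ^ r - i) *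
          (y p i ^ 2 - y p i * y p (p ^ r - i) + y p (p ^ r - i) ^ 2) - (-3) * y p i ^ 4) := by
      apply Finset.dvd_sum
      intro i hi
      have h6 := y_reflect p (p ^ r) i hpr (by rw [Finset.mem_range] at hi; omega)
      have h7 : (p : ℤ_[p]) ∣ y p (p ^ r - i) - (- y p i) := by
        have : (p : ℤ_[p]) ∣ ((p ^ r : ℕ) : ℤ_[p]) := by
          push_cast; exact dvd_pow_self _ (by omega)
        obtain ⟨c, hc⟩ := this
        refine ⟨c * y p i * y p (p ^ r - i), ?_⟩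
        rw [hc] at h6
        linear_combination h6
      obtain ⟨c, hc⟩ := h7
      have h8 : y p (p ^ r - i) = - y p i + p * c := by linear_combination hc
      rw [h8]
      refine ⟨c * (y p i) * (3 * y p i ^ 2 + (-y p i) * (-(3 * y p i) + p * c)
        + (p * c) * (-(3 * y p i) + p * c)), ?_⟩
      ring
    rw [Finset.sum_sub_distrib, ← Finset.mul_sum] at h5
    have := dvd_add h5 (Dvd.dvd.mul_left h4 (-3))
    simpa using this
  have h2 : (p : ℤ_[p]) ^ 3 ∣ 2 * ∑ i ∈ Finset.range (p ^ r), y p i ^ 3 := by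
    rw [h]
    have : (p : ℤ_[p]) ^ 3 = p ^ 2 * p := by ring
    rw [this]
    apply mul_dvd_mul _ hT
    push_cast
    exact pow_dvd_pow _ hr
  exact (IsUnit.dvd_mul_left (isUnit_two p h5)).mp h2


theorem zmod_sum_inv_sq (N : ℕ) [NeZero N] (h2 : IsUnit (2 : ZMod N)) (h3 : IsUnit (3 : ZMod N)) :
    ∑ a : ZMod N, (Ring.inverse a) ^ 2 = 0 := by
  obtain ⟨u, hu⟩ := h2
  have e1 : ∑ a : ZMod N, (Ring.inverse ((u : ZMod N) * a)) ^ 2
      = ∑ a : ZMod N, (Ring.inverse a) ^ 2 :=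
    Equiv.sum_comp (Units.mulLeft u) (fun a => (Ring.inverse a) ^ 2)
  have e2 : ∑ a : ZMod N, (Ring.inverse ((u : ZMod N) * a)) ^ 2
      = (Ring.inverse (u : ZMod N)) ^ 2 * ∑ a : ZMod N, (Ring.inverse a) ^ 2 := by
    rw [Finset.mul_sum]
    apply Finset.sum_congr rfl
    intro a _
    rw [Ring.mul_inverse_rev]; ring
  have e3 : (u : ZMod N) * Ring.inverse (u : ZMod N) = 1 := Ring.mul_inverse_cancel _ u.isUnit
  rw [e1] at e2
  set S := ∑ a : ZMod N, (Ring.inverse a) ^ 2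
  have e4 : (3 : ZMod N) * S = 0 := by
    have : (u : ZMod N) ^ 2 * S = S := by
      calc (u : ZMod N) ^ 2 * S = (u : ZMod N) ^ 2 * ((Ring.inverse (u : ZMod N)) ^ 2 * S) := by
            rw [← e2]
        _ = ((u : ZMod N) * Ring.inverse (u : ZMod N)) ^ 2 * S := by ring
        _ = S := by rw [e3]; ring
    rw [hu] at this
    linear_combination this
  exact (IsUnit.mul_right_eq_zero h3).mp e4

theorem dvd_V_pow (h5 : 5 ≤ p) (s : ℕ) :
    (p : ℤ_[p]) ^ s ∣ ∑ i ∈ Finset.range (p ^ s), y p i ^ 2 := by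
  rcases Nat.eq_zero_or_pos s with rfl | hs
  · simp
  rw [← Ideal.mem_span_singleton, ← PadicInt.ker_toZModPow, RingHom.mem_ker, map_sum]
  have hne : NeZero (p ^ s) := ⟨pow_ne_zero _ hp.out.ne_zero⟩
  have hunit : ∀ k : ℕ, 0 < k → k < 5 → IsUnit ((k : ℕ) : ZMod (p ^ s)) := by
    intro k hk0 hk
    rw [ZMod.isUnit_iff_coprime]
    apply Nat.Coprime.pow_right
    apply Nat.Coprime.symm
    rw [Nat.Prime.coprime_iff_not_dvd hp.out]
    intro h
    have := Nat.le_of_dvd hk0 h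
    omega
  have key : ∀ i : ℕ, PadicInt.toZModPow s (y p i ^ 2) = (Ring.inverse ((i : ℕ) : ZMod (p ^ s))) ^ 2 := by
    intro i
    rw [map_pow]
    congr 1
    by_cases hi : p ∣ i
    · rw [y_zero p i hi, map_zero, Ring.inverse_non_unit]
      rw [ZMod.isUnit_iff_coprime]
      intro h
      have h1 : p ∣ Nat.gcd i (p ^ s) := Nat.dvd_gcd hi (dvd_pow_self _ (by omega))
      rw [h] at h1
      exact hp.out.one_lt.ne' (Nat.dvd_one.mp h1)
    · have h1 := y_mul p i hi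
      have h2 := congrArg (PadicInt.toZModPow s) h1
      rw [map_mul, map_natCast, map_one] at h2
      have h3 : ((i : ℕ) : ZMod (p ^ s)) * Ring.inverse ((i : ℕ) : ZMod (p ^ s)) = 1 :=
        Ring.mul_inverse_cancel _ (IsUnit.of_mul_eq_one _ h2)
      calc PadicInt.toZModPow s (y p i)
          = PadicInt.toZModPow s (y p i)
              * (((i : ℕ) : ZMod (p ^ s)) * Ring.inverse ((i : ℕ) : ZMod (p ^ s))) := by
            rw [h3, mul_one]
        _ = (((i : ℕ) : ZMod (p ^ s)) * PadicInt.toZModPow s (y p i))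
              * Ring.inverse ((i : ℕ) : ZMod (p ^ s)) := by ring
        _ = Ring.inverse ((i : ℕ) : ZMod (p ^ s)) := by rw [h2, one_mul]
  rw [Finset.sum_congr rfl (fun i _ => key i)]
  have h2 : IsUnit (2 : ZMod (p ^ s)) := by exact_mod_cast hunit 2 (by omega) (by omega)
  have h3 : IsUnit (3 : ZMod (p ^ s)) := by exact_mod_cast hunit 3 (by omega) (by omega)
  rw [← zmod_sum_inv_sq (p ^ s) h2 h3]
  apply Finset.sum_nbij (fun i : ℕ => ((i : ℕ) : ZMod (p ^ s)))
  · intro i _; exact Finset.mem_univ _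
  · intro i hi j hj hij
    simp only [Finset.coe_range, Set.mem_Iio] at hi hj
    have := (ZMod.natCast_eq_natCast_iff' i j (p ^ s)).mp hij
    rwa [Nat.mod_eq_of_lt hi, Nat.mod_eq_of_lt hj] at this
  · intro a _
    refine ⟨a.val, ?_, ZMod.natCast_zmod_val a⟩
    simp only [Finset.coe_range, Set.mem_Iio]
    exact ZMod.val_lt a
  · intro i _; rfl

/-- `V j` is the sum of the squares of the inverses of the naturals below `j` prime to `p` -/
noncomputable def V (j : ℕ) : ℤ_[p] := ∑ i ∈ Finset.range j, y p i ^ 2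

theorem dvd_V (h5 : 5 ≤ p) (s m : ℕ) : (p : ℤ_[p]) ^ s ∣ V p (m * p ^ s) := by
  rcases Nat.eq_zero_or_pos s with rfl | hs
  · simp
  unfold V
  rw [sum_blocks]
  apply Finset.dvd_sum
  intro b _
  have h1 : (p : ℤ_[p]) ^ s ∣ ∑ i ∈ Finset.range (p ^ s), (y p (b * p ^ s + i) ^ 2 - y p i ^ 2) := by
    apply Finset.dvd_sum
    intro i _
    have h := y_shift p (b * p ^ s) i (Dvd.dvd.mul_left (dvd_pow_self _ (by omega)) _)
    refine dvd_trans ?_ (sub_dvd_pow_sub_pow _ _ 2)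
    refine ⟨-(b * y p i * y p (b * p ^ s + i)), ?_⟩
    push_cast at h
    linear_combination h
  rw [Finset.sum_sub_distrib] at h1
  have := dvd_add h1 (dvd_V_pow p h5 s)
  simpa using this

/-- `V (b * L) ≡ b * V L` modulo `p * L` for `L` divisible by `p` -/
theorem V_mul (h5 : 5 ≤ p) (L : ℕ) (hL : p ∣ L) (m : ℕ) :
    ((p : ℤ_[p]) * L) ∣ V p (m * L) - m * V p L := by
  unfold V
  rw [sum_blocks]
  have : (m : ℤ_[p]) * ∑ i ∈ Finset.range L, y p i ^ 2
      = ∑ b ∈ Finset.range m, ∑ i ∈ Finset.range L, y p i ^ 2 := by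
    rw [Finset.sum_const, Finset.card_range, nsmul_eq_mul]
  rw [this, ← Finset.sum_sub_distrib]
  apply Finset.dvd_sum
  intro b _
  have hS3 := dvd_S3 p h5 L hL
  have hpL : (p : ℤ_[p]) ∣ (L : ℤ_[p]) := by exact_mod_cast Nat.cast_dvd_cast hL
  -- compare with -2 b L * sum of cubes
  have h1 : ((p : ℤ_[p]) * L) ∣ ∑ i ∈ Finset.range L,
      (y p (b * L + i) ^ 2 - y p i ^ 2 - (-2) * (b * L) * y p i ^ 3) := by
    apply Finset.dvd_sum
    intro i _
    have h := y_shift p (b * L) i (Dvd.dvd.mul_left hL _)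
    push_cast at h
    obtain ⟨c, hc⟩ := hpL
    have e1 : y p (b * L + i) ^ 2 - y p i ^ 2 - (-2) * (b * L) * y p i ^ 3
        = (b * y p i) * (b * y p i * y p (b * L + i) * (y p (b * L + i) + 2 * y p i))
            * ((L : ℤ_[p]) * L) := by
      linear_combination (y p (b * L + i) + y p i
        - b * L * y p i * (y p (b * L + i) + 2 * y p i)) * h
    rw [e1]
    apply Dvd.dvd.mul_left
    exact mul_dvd_mul (by exact_mod_cast Nat.cast_dvd_cast hL) dvd_rfl
  rw [Finset.sum_sub_distrib, Finset.sum_sub_distrib, ← Finset.mul_sum] at h1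
  have h2 : ((p : ℤ_[p]) * L) ∣ (-2) * (b * L) * ∑ i ∈ Finset.range L, y p i ^ 3 := by
    obtain ⟨c, hc⟩ := hS3
    exact ⟨-2 * b * c, by rw [hc]; ring⟩
  have := dvd_add h1 h2
  simpa using this

/-! ### The weights `x j = p ^ r / j` -/

theorem exists_x (r : ℕ) : ∃ x : ℕ → ℤ_[p], x 0 = 0 ∧
    (∀ s m : ℕ, s ≤ r → ¬ p ∣ m → x (p ^ s * m) = p ^ (r - s) * y p m) := by
  classical
  refine ⟨fun j => if j = 0 then 0 else
    p ^ (r - padicValNat p j) * y p (j / p ^ padicValNat p j), by simp, ?_⟩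
  intro s m hs hm
  have hm0 : m ≠ 0 := fun h => hm (h ▸ dvd_zero p)
  have hv : padicValNat p (p ^ s * m) = s := by
    rw [padicValNat.mul (pow_ne_zero _ hp.out.ne_zero) hm0, padicValNat.prime_pow,
      padicValNat.eq_zero_of_not_dvd hm, add_zero]
  have hne : p ^ s * m ≠ 0 := mul_ne_zero (pow_ne_zero _ hp.out.ne_zero) hm0
  simp only [hne, if_false, hv]
  rw [Nat.mul_div_cancel_left _ (pow_pos hp.out.pos s)]

theorem decomp (r j : ℕ) (hj0 : 1 ≤ j) (hj : j < p ^ r) :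
    ∃ s m : ℕ, s < r ∧ ¬ p ∣ m ∧ j = p ^ s * m := by
  obtain ⟨s, m, hm, hjm⟩ := Nat.exists_eq_pow_mul_and_not_dvd (n := j) (by omega) p hp.out.one_lt.ne'
  refine ⟨s, m, ?_, hm, hjm⟩
  have hm0 : 0 < m := Nat.pos_of_ne_zero (fun h => hm (h ▸ dvd_zero p))
  have h1 : p ^ s ≤ j := by rw [hjm]; exact Nat.le_mul_of_pos_right _ hm0
  exact (Nat.pow_lt_pow_iff_right hp.out.one_lt).mp (lt_of_le_of_lt h1 hj)


/-- `Q w j = ∏_{i<j} (1 - w_i^2)^2` -/
noncomputable def Q (w : ℕ → ℤ_[p]) (j : ℕ) : ℤ_[p] := ∏ i ∈ Finset.range j, (1 - w i ^ 2) ^ 2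

/-- `G w N = ∑_{j<N} w_j^3 (1 - w_j) Q w j` -/
noncomputable def G (w : ℕ → ℤ_[p]) (N : ℕ) : ℤ_[p] :=
  ∑ j ∈ Finset.range N, w j ^ 3 * (1 - w j) * Q p w j

theorem Q_eq (w : ℕ → ℤ_[p]) (hw : w 0 = 0) (j : ℕ) (hj : 1 ≤ j) :
    ∏ i ∈ Finset.Ico 1 j, (1 - w i ^ 2) ^ 2 = Q p w j := by
  unfold Q
  rw [Finset.range_eq_Ico, Finset.prod_eq_prod_Ico_succ_bot (by omega : 0 < j), hw]
  simp

theorem a_eq (n : ℕ) (hn : 1 ≤ n) (w : ℕ → ℤ_[p]) (hw0 : w 0 = 0)
    (hw : ∀ j, 1 ≤ j → j < n → (j : ℤ_[p]) * w j = n) :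
    (a n : ℤ_[p]) = 1 - G p w n := by
  rw [a_closed n hn w hw]
  unfold G
  rw [Finset.range_eq_Ico, Finset.sum_eq_sum_Ico_succ_bot (by omega : 0 < n), hw0]
  simp only [zero_add]
  congr 1
  have : (0 : ℤ_[p]) ^ 3 * (1 - 0) * Q p w 0 = 0 := by ring
  rw [this, zero_add]
  apply Finset.sum_congr rfl
  intro j hj
  rw [Finset.mem_Ico] at hj
  rw [Q_eq p w hw0 j hj.1]

theorem Q_sparse (z : ℕ → ℤ_[p]) (hz : ∀ j, ¬ p ∣ j → z j = 0) (j : ℕ) :
    Q p z (j * p) = Q p (fun i => z (i * p)) j := by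
  unfold Q
  induction j with
  | zero => simp
  | succ j ih =>
    rw [Nat.succ_mul, Finset.prod_range_add, ih, Finset.prod_range_succ]
    congr 1
    have h1 : ∏ i ∈ Finset.range p, (1 - z (j * p + i) ^ 2) ^ 2 = (1 - z (j * p + 0) ^ 2) ^ 2 := by
      apply Finset.prod_eq_single_of_mem
      · exact Finset.mem_range.mpr hp.out.pos
      · intro i hi hi0
        rw [Finset.mem_range] at hi
        rw [hz]
        · ring
        · intro h
          have h1 := (Nat.dvd_add_right (Dvd.intro_left j rfl)).mp h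
          have := Nat.le_of_dvd (by omega) h1
          omega
    rw [h1, add_zero]

theorem G_sparse (z : ℕ → ℤ_[p]) (hz : ∀ j, ¬ p ∣ j → z j = 0) (N : ℕ) :
    G p z (N * p) = G p (fun i => z (i * p)) N := by
  unfold G
  rw [sum_blocks]
  apply Finset.sum_congr rfl
  intro b _
  have h1 : ∑ i ∈ Finset.range p, z (b * p + i) ^ 3 * (1 - z (b * p + i)) * Q p z (b * p + i)
      = z (b * p + 0) ^ 3 * (1 - z (b * p + 0)) * Q p z (b * p + 0) := by
    apply Finset.sum_eq_single_of_mem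
    · exact Finset.mem_range.mpr hp.out.pos
    · intro i hi hi0
      rw [Finset.mem_range] at hi
      rw [hz]
      · ring
      · intro h
        have h1 := (Nat.dvd_add_right (Dvd.intro_left b rfl)).mp h
        have := Nat.le_of_dvd (by omega) h1
        omega
  rw [h1, add_zero, Q_sparse p z hz]

theorem Q_w (r : ℕ) (j : ℕ) :
    (p : ℤ_[p]) ^ (4 * r) ∣ Q p (fun i => p ^ r * y p i) j - (1 - 2 * p ^ (2 * r) * V p j) := by
  induction j with
  | zero => simp [Q, V]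
  | succ j ih =>
    have e1 : Q p (fun i => p ^ r * y p i) (j + 1)
        = Q p (fun i => p ^ r * y p i) j * (1 - (p ^ r * y p j) ^ 2) ^ 2 := by
      unfold Q; rw [Finset.prod_range_succ]
    have e2 : V p (j + 1) = V p j + y p j ^ 2 := by
      unfold V; rw [Finset.sum_range_succ]
    obtain ⟨c, hc⟩ := ih
    have e3 : Q p (fun i => p ^ r * y p i) j = 1 - 2 * p ^ (2 * r) * V p j + p ^ (4 * r) * c := by
      linear_combination hc
    rw [e1, e2, e3]
    refine ⟨c * (1 - (p ^ r * y p j) ^ 2) ^ 2 + y p j ^ 4 + 4 * V p j * y p j ^ 2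
      - 2 * p ^ (2 * r) * V p j * y p j ^ 4, ?_⟩
    have e4 : (p : ℤ_[p]) ^ (4 * r) = (p ^ r) ^ 4 := by rw [← pow_mul]; ring_nf
    have e5 : (p : ℤ_[p]) ^ (2 * r) = (p ^ r) ^ 2 := by rw [← pow_mul]; ring_nf
    rw [e4, e5]
    ring


theorem Q_near_one (x : ℕ → ℤ_[p]) (N : ℕ) (hxp : ∀ j, j < N → (p : ℤ_[p]) ∣ x j) :
    ∀ j, j ≤ N → (p : ℤ_[p]) ^ 2 ∣ Q p x j - 1 := by
  intro j
  induction j with
  | zero => intro _; simp [Q]
  | succ j ih =>
    intro hj
    have e1 : Q p x (j + 1) = Q p x j * (1 - x j ^ 2) ^ 2 := by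
      unfold Q; rw [Finset.prod_range_succ]
    obtain ⟨c, hc⟩ := ih (by omega)
    obtain ⟨d, hd⟩ := hxp j (by omega)
    have e2 : Q p x j = 1 + p ^ 2 * c := by linear_combination hc
    rw [e1, e2, hd]
    exact ⟨c * (1 - (p * d) ^ 2) ^ 2 - 2 * d ^ 2 + p ^ 2 * d ^ 4, by ring⟩

theorem Q_block (x : ℕ → ℤ_[p]) (m L : ℕ)
    (hx : ∀ i, 0 < i → i < L → (p : ℤ_[p]) ^ 2 ∣ x (m + i)) :
    ∀ i, 0 < i → i < L → (p : ℤ_[p]) ^ 3 ∣ Q p x (m + i) - Q p x (m + 1) := by
  intro i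
  induction i with
  | zero => intro h; exact absurd h (lt_irrefl 0)
  | succ i ih =>
    intro _ hi
    rcases Nat.eq_zero_or_pos i with rfl | hi0
    · simp
    · have e1 : Q p x (m + (i + 1)) = Q p x (m + i) * (1 - x (m + i) ^ 2) ^ 2 := by
        unfold Q; rw [← add_assoc, Finset.prod_range_succ]
      obtain ⟨c, hc⟩ := ih hi0 (by omega)
      obtain ⟨d, hd⟩ := hx i hi0 (by omega)
      have e2 : Q p x (m + i) = Q p x (m + 1) + p ^ 3 * c := by linear_combination hc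
      rw [e1, hd, e2]
      exact ⟨c * (1 - (p ^ 2 * d) ^ 2) ^ 2
        + Q p x (m + 1) * (- 2 * p * d ^ 2 + p ^ 5 * d ^ 4), by ring⟩

theorem part1 (h5 : 5 ≤ p) (t : ℕ) (ht : 1 ≤ t) (x : ℕ → ℤ_[p])
    (hxp : ∀ j, j < p * p ^ t → (p : ℤ_[p]) ∣ x j)
    (hxp2 : ∀ b i, b < p → 0 < i → i < p ^ t → (p : ℤ_[p]) ^ 2 ∣ x (b * p ^ t + i)) :
    (p : ℤ_[p]) ^ 3 ∣ ∑ j ∈ Finset.range (p * p ^ t),
      y p j ^ 3 * (1 - p ^ (t + 1) * y p j) * Q p x j := by
  have hL : p ∣ p ^ t := dvd_pow_self _ (by omega)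
  have hL2 : 1 < p ^ t := Nat.one_lt_pow (by omega) hp.out.one_lt
  set f : ℕ → ℤ_[p] := fun j => y p j ^ 3 * (1 - p ^ (t + 1) * y p j) with hf
  have hB : ∀ b, (p : ℤ_[p]) ∣ ∑ i ∈ Finset.range (p ^ t), f (b * p ^ t + i) := by
    intro b
    have h1 : (p : ℤ_[p]) ∣ ∑ i ∈ Finset.range (p ^ t), (f (b * p ^ t + i) - y p i ^ 3) := by
      apply Finset.dvd_sum
      intro i _
      have h := y_shift p (b * p ^ t) i (Dvd.dvd.mul_left hL _)
      have h2 : (p : ℤ_[p]) ∣ y p (b * p ^ t + i) - y p i := by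
        have : (p : ℤ_[p]) ∣ ((b * p ^ t : ℕ) : ℤ_[p]) :=
          by exact_mod_cast Nat.cast_dvd_cast (Dvd.dvd.mul_left hL _)
        obtain ⟨c, hc⟩ := this
        rw [hc] at h
        exact ⟨-(c * y p i * y p (b * p ^ t + i)), by linear_combination h⟩
      have h3 := h2.trans (sub_dvd_pow_sub_pow (y p (b * p ^ t + i)) (y p i) 3)
      obtain ⟨c, hc⟩ := h3
      refine ⟨c - p ^ t * y p (b * p ^ t + i) ^ 4, ?_⟩
      simp only [hf]
      linear_combination hc
    rw [Finset.sum_sub_distrib] at h1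
    have := dvd_add h1 (dvd_S3 p h5 (p ^ t) hL)
    simpa using this
  have hT : (p : ℤ_[p]) ^ 3 ∣ ∑ b ∈ Finset.range p, ∑ i ∈ Finset.range (p ^ t), f (b * p ^ t + i) := by
    rw [← sum_blocks]
    have e : p * p ^ t = p ^ (t + 1) := by ring
    rw [e]
    have h1 := cube_dvd_S3 p h5 (t + 1) (by omega)
    have h2 := dvd_S4 p (t + 1) (by omega)
    have e2 : ∑ i ∈ Finset.range (p ^ (t + 1)), f i
        = ∑ i ∈ Finset.range (p ^ (t + 1)), y p i ^ 3
          - p ^ (t + 1) * ∑ i ∈ Finset.range (p ^ (t + 1)), y p i ^ 4 := by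
      rw [Finset.mul_sum, ← Finset.sum_sub_distrib]
      apply Finset.sum_congr rfl
      intro i _
      simp only [hf]; ring
    rw [e2]
    apply dvd_sub h1
    obtain ⟨c, hc⟩ := h2
    obtain ⟨k, rfl⟩ : ∃ k, t = k + 1 := ⟨t - 1, by omega⟩
    rw [hc]
    exact ⟨p ^ k * c, by ring⟩
  rw [sum_blocks]
  have e1 : ∑ b ∈ Finset.range p, ∑ i ∈ Finset.range (p ^ t),
        y p (b * p ^ t + i) ^ 3 * (1 - p ^ (t + 1) * y p (b * p ^ t + i)) * Q p x (b * p ^ t + i)
      = ∑ b ∈ Finset.range p, ∑ i ∈ Finset.range (p ^ t),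
          f (b * p ^ t + i) * (Q p x (b * p ^ t + i) - Q p x (b * p ^ t + 1))
        + ∑ b ∈ Finset.range p, (Q p x (b * p ^ t + 1) - 1) *
            ∑ i ∈ Finset.range (p ^ t), f (b * p ^ t + i)
        + ∑ b ∈ Finset.range p, ∑ i ∈ Finset.range (p ^ t), f (b * p ^ t + i) := by
    rw [← Finset.sum_add_distrib, ← Finset.sum_add_distrib]
    apply Finset.sum_congr rfl
    intro b _
    rw [Finset.mul_sum, ← Finset.sum_add_distrib, ← Finset.sum_add_distrib]
    apply Finset.sum_congr rfl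
    intro i _
    simp only [hf]; ring
  rw [e1]
  apply dvd_add (dvd_add _ _) hT
  · apply Finset.dvd_sum
    intro b hb
    rw [Finset.mem_range] at hb
    apply Finset.dvd_sum
    intro i hi
    rw [Finset.mem_range] at hi
    rcases Nat.eq_zero_or_pos i with rfl | hi0
    · have : f (b * p ^ t + 0) = 0 := by
        simp only [hf]
        rw [y_zero p (b * p ^ t + 0) (by rw [add_zero]; exact Dvd.dvd.mul_left hL _)]
        ring
      rw [this, zero_mul]; exact dvd_zero _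
    · apply Dvd.dvd.mul_left
      exact Q_block p x (b * p ^ t) (p ^ t) (fun i h1 h2 => hxp2 b i hb h1 h2) i hi0 hi
  · apply Finset.dvd_sum
    intro b hb
    rw [Finset.mem_range] at hb
    have h1 := Q_near_one p x (p * p ^ t) hxp (b * p ^ t + 1) (by nlinarith)
    have : (p : ℤ_[p]) ^ 3 = p ^ 2 * p := by ring
    rw [this]
    exact mul_dvd_mul h1 (hB b)


theorem part2 (h5 : 5 ≤ p) (t : ℕ) (z : ℕ → ℤ_[p])
    (hz0 : z 0 = 0) (hz : ∀ j, ¬ p ∣ j → z j = 0)
    (hzp : ∀ j, j < p * p ^ t → (p : ℤ_[p]) ∣ z j)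
    (hzv : ∀ s m, 1 ≤ s → s ≤ t → ¬ p ∣ m → z (p ^ s * m) = p ^ (t + 1 - s) * y p m)
    (ht : 1 ≤ t) :
    (p : ℤ_[p]) ^ (3 * t + 6) ∣ ∑ j ∈ Finset.range (p * p ^ t),
      z j ^ 3 * (1 - z j) * Q p z j * (Q p (fun i => p ^ (t + 1) * y p i) j - 1) := by
  have hL : p ∣ p ^ t := dvd_pow_self _ (by omega)
  set w : ℕ → ℤ_[p] := fun i => p ^ (t + 1) * y p i with hw
  set T : ℕ → ℤ_[p] := fun j => z j ^ 3 * (1 - z j) * Q p z j * (Q p w j - 1) with hT
  obtain ⟨W', hW'⟩ := dvd_V_pow p h5 t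
  have hW : V p (p ^ t) = p ^ t * W' := hW'
  -- off-diagonal terms
  have hoff : ∀ b i, b < p → 0 < i → i < p ^ t → (p : ℤ_[p]) ^ (3 * t + 6) ∣ T (b * p ^ t + i) := by
    intro b i hb hi0 hi
    set j := b * p ^ t + i with hj
    have hjlt : j < p ^ (t + 1) := by
      have : p ^ (t + 1) = p * p ^ t := by ring
      rw [this]; nlinarith
    by_cases hpj : p ∣ j
    · obtain ⟨s, m, hs, hm, hjm⟩ := decomp p (t + 1) j (by omega) hjlt
      have hs1 : 1 ≤ s := by
        rcases Nat.eq_zero_or_pos s with rfl | h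
        · rw [pow_zero, one_mul] at hjm; rw [hjm] at hpj; exact absurd hpj hm
        · exact h
      have hst : s < t := by
        by_contra hcon
        have : s = t := by omega
        subst this
        have h1 : p ^ s ∣ b * p ^ s + i := by rw [← hj, hjm]; exact Dvd.intro _ rfl
        have h2 := (Nat.dvd_add_right (Dvd.intro_left b rfl)).mp h1
        have := Nat.le_of_dvd hi0 h2
        omega
      have e1 := hzv s m hs1 (by omega) hm
      rw [← hjm] at e1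
      obtain ⟨c, hc⟩ := Q_w p (t + 1) j
      obtain ⟨d, hd⟩ := dvd_V p h5 s m
      have hmj : m * p ^ s = j := by rw [hjm]; ring
      rw [hmj] at hd
      have e2 : Q p w j - 1 = p ^ (2 * (t + 1) + s) *
          (-2 * d + p ^ (2 * (t + 1) - s) * c) := by
        rw [hw]
        have e3 : (p : ℤ_[p]) ^ (4 * (t + 1)) = p ^ (2 * (t + 1) + s) * p ^ (2 * (t + 1) - s) := by
          rw [← pow_add]; congr 1; omega
        rw [hd, e3] at hc
        have e4 : (p : ℤ_[p]) ^ (2 * (t + 1) + s) = p ^ (2 * (t + 1)) * p ^ s := pow_add _ _ _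
        rw [e4] at hc ⊢
        linear_combination hc
      simp only [hT]
      rw [e1, e2]
      obtain ⟨k, hk⟩ : ∃ k, t = s + 1 + k := ⟨t - s - 1, by omega⟩
      have e5 : t + 1 - s = k + 2 := by omega
      have e6 : (p : ℤ_[p]) ^ (3 * t + 6) = p ^ (3 * s + 3 * k + 9) := by congr 1; omega
      have e7 : (p : ℤ_[p]) ^ (2 * (t + 1) + s) = p ^ (3 * s + 2 * k + 4) := by congr 1; omega
      rw [e5, e6, e7]
      refine ⟨p ^ (2 * k + 1) * y p m ^ 3 * (1 - p ^ (k + 2) * y p m) * Q p z j *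
        (-2 * d + p ^ (2 * (t + 1) - s) * c), ?_⟩
      ring
    · simp only [hT]
      rw [hz j hpj]
      have : (0 : ℤ_[p]) ^ 3 * (1 - 0) * Q p z j * (Q p w j - 1) = 0 := by ring
      rw [this]; exact dvd_zero _
  -- diagonal terms
  have hdiag : ∀ b, b < p → (p : ℤ_[p]) ^ (3 * t + 6) ∣
      T (b * p ^ t) - (-2) * p ^ (3 * t + 5) * W' * y p b ^ 2 := by
    intro b hb
    have e1 : z (b * p ^ t) = p * y p b := by
      rcases Nat.eq_zero_or_pos b with rfl | hb0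
      · rw [zero_mul, hz0, y_zero p 0 (dvd_zero p)]; ring
      · have hpb : ¬ p ∣ b := fun h => by have := Nat.le_of_dvd hb0 h; omega
        rw [mul_comm b, hzv t b ht le_rfl hpb]
        have : t + 1 - t = 1 := by omega
        rw [this, pow_one]
    have hlt : b * p ^ t ≤ p * p ^ t := Nat.mul_le_mul_right _ hb.le
    obtain ⟨c1, hc1⟩ := Q_near_one p z (p * p ^ t) hzp (b * p ^ t) hlt
    obtain ⟨c2, hc2⟩ := Q_w p (t + 1) (b * p ^ t)
    obtain ⟨c3, hc3⟩ := V_mul p h5 (p ^ t) hL b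
    have hyb : (b : ℤ_[p]) * y p b ^ 3 = y p b ^ 2 := by
      by_cases hpb : p ∣ b
      · rw [y_zero p b hpb]; ring
      · have := y_mul p b hpb
        linear_combination (y p b ^ 2) * this
    rw [hW] at hc3
    push_cast at hc3
    have e2 : Q p z (b * p ^ t) = 1 + p ^ 2 * c1 := by linear_combination hc1
    have e3 : V p (b * p ^ t) = p ^ t * (b * W' + p * c3) := by linear_combination hc3
    have e4 : Q p w (b * p ^ t) - 1
        = p ^ (3 * t + 2) * (-2 * (b * W' + p * c3) + p ^ (t + 2) * c2) := by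
      rw [e3] at hc2
      have e5 : (p : ℤ_[p]) ^ (4 * (t + 1)) = p ^ (3 * t + 2) * p ^ (t + 2) := by
        rw [← pow_add]; congr 1; omega
      have e6 : (p : ℤ_[p]) ^ (3 * t + 2) = p ^ (2 * (t + 1)) * p ^ t := by
        rw [← pow_add]; congr 1; omega
      rw [e5] at hc2
      rw [e6] at hc2 ⊢
      rw [hw]
      linear_combination hc2
    simp only [hT]
    rw [e1, e2, e4]
    have e7 : (p : ℤ_[p]) ^ (3 * t + 6) = p ^ (3 * t + 2) * p ^ 4 := by rw [← pow_add]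
    have e8 : (p : ℤ_[p]) ^ (3 * t + 5) = p ^ (3 * t + 2) * p ^ 3 := by rw [← pow_add]
    rw [e7, e8]
    refine ⟨y p b ^ 3 * ((-2 * c3 + p ^ (t + 1) * c2) - 2 * (-y p b + p * c1 - p ^ 2 * c1 * y p b)
      * (b * W') + p * (-y p b + p * c1 - p ^ 2 * c1 * y p b) * (-2 * c3 + p ^ (t + 1) * c2)), ?_⟩
    linear_combination (-2 * p ^ (3 * t + 2) * p ^ 3 * W') * hyb
  rw [sum_blocks]
  have e1 : ∑ b ∈ Finset.range p, ∑ i ∈ Finset.range (p ^ t), T (b * p ^ t + i)
      = ∑ b ∈ Finset.range p, (∑ i ∈ Finset.range (p ^ t), T (b * p ^ t + i) - T (b * p ^ t))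
        + ∑ b ∈ Finset.range p, (T (b * p ^ t) - (-2) * p ^ (3 * t + 5) * W' * y p b ^ 2)
        + (-2) * p ^ (3 * t + 5) * W' * ∑ b ∈ Finset.range p, y p b ^ 2 := by
    rw [Finset.mul_sum, ← Finset.sum_add_distrib, ← Finset.sum_add_distrib]
    apply Finset.sum_congr rfl
    intro b _
    ring
  change (p : ℤ_[p]) ^ (3 * t + 6) ∣ ∑ b ∈ Finset.range p, ∑ i ∈ Finset.range (p ^ t), T (b * p ^ t + i)
  rw [e1]
  apply dvd_add (dvd_add _ _) _
  · apply Finset.dvd_sum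
    intro b hb
    rw [Finset.mem_range] at hb
    have hpos : 0 < p ^ t := pow_pos hp.out.pos t
    have e2 : ∑ i ∈ Finset.range (p ^ t), T (b * p ^ t + i) - T (b * p ^ t)
        = ∑ i ∈ (Finset.range (p ^ t)).erase 0, T (b * p ^ t + i) := by
      rw [← Finset.add_sum_erase _ _ (Finset.mem_range.mpr hpos)]
      simp
    rw [e2]
    apply Finset.dvd_sum
    intro i hi
    rw [Finset.mem_erase, Finset.mem_range] at hi
    exact hoff b i hb (Nat.pos_of_ne_zero hi.1) hi.2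
  · apply Finset.dvd_sum
    intro b hb
    exact hdiag b (Finset.mem_range.mp hb)
  · have h1 := dvd_V_pow p h5 1
    rw [pow_one, pow_one] at h1
    obtain ⟨c, hc⟩ := h1
    rw [hc]
    exact ⟨-2 * W' * c, by ring⟩


theorem main_padic (h5 : 5 ≤ p) (t : ℕ) (ht : 1 ≤ t) :
    (p : ℤ_[p]) ^ (3 * t + 6) ∣ (a (p ^ (t + 1)) : ℤ_[p]) - (a (p ^ t) : ℤ_[p]) := by
  classical
  obtain ⟨x, hx0, hx⟩ := exists_x p (t + 1)
  have hp0 : (p : ℤ_[p]) ≠ 0 := by exact_mod_cast hp.out.ne_zero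
  have hN : p * p ^ t = p ^ (t + 1) := by ring
  -- basic properties of x
  have hmul : ∀ j, 1 ≤ j → j < p ^ (t + 1) → (j : ℤ_[p]) * x j = (p ^ (t + 1) : ℕ) := by
    intro j hj1 hj
    obtain ⟨s, m, hs, hm, hjm⟩ := decomp p (t + 1) j hj1 hj
    have h1 := hx s m hs.le hm
    rw [← hjm] at h1
    have h2 := y_mul p m hm
    rw [h1, hjm]
    push_cast
    have h3 : (p : ℤ_[p]) ^ (t + 1) = p ^ s * p ^ (t + 1 - s) := by
      rw [← pow_add]; congr 1; omega
    rw [h3]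
    linear_combination ((p : ℤ_[p]) ^ s * p ^ (t + 1 - s)) * h2
  have hxunit : ∀ j, ¬ p ∣ j → x j = p ^ (t + 1) * y p j := by
    intro j hj
    have := hx 0 j (by omega) hj
    simpa using this
  have hxp : ∀ j, j < p * p ^ t → (p : ℤ_[p]) ∣ x j := by
    intro j hj
    rcases Nat.eq_zero_or_pos j with rfl | hj0
    · rw [hx0]; exact dvd_zero _
    · obtain ⟨s, m, hs, hm, hjm⟩ := decomp p (t + 1) j hj0 (by rw [← hN]; exact hj)
      rw [hjm, hx s m hs.le hm]
      exact Dvd.dvd.mul_right (dvd_pow_self _ (by omega)) _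
  have hxp2 : ∀ b i, b < p → 0 < i → i < p ^ t → (p : ℤ_[p]) ^ 2 ∣ x (b * p ^ t + i) := by
    intro b i hb hi0 hi
    have hlt : b * p ^ t + i < p ^ (t + 1) := by rw [← hN]; nlinarith
    obtain ⟨s, m, hs, hm, hjm⟩ := decomp p (t + 1) (b * p ^ t + i) (by omega) hlt
    have hst : s < t := by
      by_contra hcon
      have : s = t := by omega
      subst this
      have h1 : p ^ s ∣ b * p ^ s + i := by rw [hjm]; exact Dvd.intro _ rfl
      have h2 := (Nat.dvd_add_right (Dvd.intro_left b rfl)).mp h1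
      have := Nat.le_of_dvd hi0 h2
      omega
    rw [hjm, hx s m hs.le hm]
    exact Dvd.dvd.mul_right (pow_dvd_pow _ (by omega)) _
  -- the function z
  set z : ℕ → ℤ_[p] := fun j => if p ∣ j then x j else 0 with hz
  set w : ℕ → ℤ_[p] := fun i => p ^ (t + 1) * y p i with hw
  have hz0 : z 0 = 0 := by simp [hz, hx0]
  have hz1 : ∀ j, ¬ p ∣ j → z j = 0 := fun j hj => by simp [hz, hj]
  have hz2 : ∀ j, p ∣ j → z j = x j := fun j hj => by simp [hz, hj]
  have hzp : ∀ j, j < p * p ^ t → (p : ℤ_[p]) ∣ z j := by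
    intro j hj
    by_cases h : p ∣ j
    · rw [hz2 j h]; exact hxp j hj
    · rw [hz1 j h]; exact dvd_zero _
  have hzv : ∀ s m, 1 ≤ s → s ≤ t → ¬ p ∣ m → z (p ^ s * m) = p ^ (t + 1 - s) * y p m := by
    intro s m hs hst hm
    rw [hz2 _ (Dvd.dvd.mul_right (dvd_pow_self _ (by omega)) _), hx s m (by omega) hm]
  -- closed forms
  have hA1 : (a (p ^ (t + 1)) : ℤ_[p]) = 1 - G p x (p ^ (t + 1)) :=
    a_eq p _ (Nat.one_le_pow _ _ hp.out.pos) x hx0 hmul
  have hA0 : (a (p ^ t) : ℤ_[p]) = 1 - G p (fun i => x (i * p)) (p ^ t) := by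
    apply a_eq p _ (Nat.one_le_pow _ _ hp.out.pos)
    · rw [zero_mul, hx0]
    · intro j hj1 hj
      have h1 := hmul (j * p) (Nat.mul_pos hj1 hp.out.pos) (by
        rw [pow_succ]; exact Nat.mul_lt_mul_of_pos_right hj hp.out.pos)
      apply mul_left_cancel₀ hp0
      push_cast at h1 ⊢
      linear_combination h1
  have hGz : G p z (p ^ (t + 1)) = G p (fun i => x (i * p)) (p ^ t) := by
    have e : p ^ (t + 1) = p ^ t * p := by ring
    rw [e, G_sparse p z hz1]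
    have : (fun i => z (i * p)) = fun i => x (i * p) := by
      funext i
      exact hz2 _ (Dvd.intro_left i rfl)
    rw [this]
  have hQ : ∀ j, Q p x j = Q p z j * Q p w j := by
    intro j
    unfold Q
    rw [← Finset.prod_mul_distrib]
    apply Finset.prod_congr rfl
    intro i _
    by_cases h : p ∣ i
    · rw [hz2 i h]
      have : w i = 0 := by simp only [hw]; rw [y_zero p i h]; ring
      rw [this]; ring
    · rw [hz1 i h]
      have : x i = w i := hxunit i h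
      rw [this]; ring
  have hdiff : G p x (p * p ^ t) - G p z (p * p ^ t)
      = (p : ℤ_[p]) ^ (3 * t + 3) * ∑ j ∈ Finset.range (p * p ^ t),
          y p j ^ 3 * (1 - p ^ (t + 1) * y p j) * Q p x j
        + ∑ j ∈ Finset.range (p * p ^ t), z j ^ 3 * (1 - z j) * Q p z j * (Q p w j - 1) := by
    unfold G
    rw [← Finset.sum_sub_distrib, Finset.mul_sum, ← Finset.sum_add_distrib]
    apply Finset.sum_congr rfl
    intro j _
    have e3 : (p : ℤ_[p]) ^ (3 * t + 3) = (p ^ (t + 1)) ^ 3 := by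
      rw [← pow_mul]; congr 1; ring
    rw [e3]
    by_cases h : p ∣ j
    · rw [hz2 j h, y_zero p j h, hQ j]; ring
    · rw [hz1 j h, hxunit j h]; ring
  have h1 := part1 p h5 t ht x hxp hxp2
  have h2 := part2 p h5 t z hz0 hz1 hzp hzv ht
  have h3 : (p : ℤ_[p]) ^ (3 * t + 6) ∣ G p x (p * p ^ t) - G p z (p * p ^ t) := by
    rw [hdiff]
    apply dvd_add _ h2
    have : (p : ℤ_[p]) ^ (3 * t + 6) = p ^ (3 * t + 3) * p ^ 3 := by rw [← pow_add]
    rw [this]
    exact mul_dvd_mul dvd_rfl h1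
  rw [hN] at h3
  rw [hA1, hA0, ← hGz]
  have : (1 - G p x (p ^ (t + 1))) - (1 - G p z (p ^ (t + 1)))
      = -(G p x (p ^ (t + 1)) - G p z (p ^ (t + 1))) := by ring
  rw [this]
  exact (dvd_neg).mpr h3

end Padic

/-- Bala's supercongruence (the full question Q1): for every prime `p ≥ 5` and every `r ≥ 2`,
`p ^ (3 r + 3)` divides `a (p ^ r) - a (p ^ (r - 1))`. -/
theorem result : ∀ p r : ℕ, p.Prime → 5 ≤ p → 2 ≤ r →
    (p : ℤ) ^ (3 * r + 3) ∣ (a (p ^ r) : ℤ) - (a (p ^ (r - 1)) : ℤ) := by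
  intro p r hp h5 hr
  have : Fact p.Prime := ⟨hp⟩
  obtain ⟨t, rfl⟩ : ∃ t, r = t + 1 := ⟨r - 1, by omega⟩
  have h := main_padic p h5 t (by omega)
  rw [Nat.add_sub_cancel]
  have e : 3 * (t + 1) + 3 = 3 * t + 6 := by ring
  rw [e]
  apply (PadicInt.pow_p_dvd_int_iff (3 * t + 6) _).mp
  push_cast
  exact h

end Pool.Agent.Results.MP_5eb62f_nt.BalaSupercongruence
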